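import Pool.Agent.Y136.MG.Bad

/-!
# The exceptional set of a torus as the zero set of a class polynomial
-/

open Polynomial

namespace Pool.Agent.Y136

variable {J : Type*} [Fintype J] [DecidableEq J] {G : Type*} [Group G]

namespace Diagonalises

variable {T : Subgroup G} {R : G →* Matrix J J ℂ} {P P' : Matrix J J ℂ} {lam : J → G → ℂ}
  [TopologicalSpace G] [IsTopologicalGroup G]

/-- There is a class polynomial which vanishes at the elements of the torus satisfying a
multiplicative relation which does not hold on the torus. -/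
theorem exists_clp (h : Diagonalises T R P P' lam) (hR : Continuous R)
    [PreconnectedSpace T] (n₀ D e : ℕ) (he : 0 < e) (deg : J → ℕ) :
    ∃ N₁ M c : ℕ, (∃ g, clp N₁ M c (plusM (R g)) ≠ 0) ∧
      ∀ t ∈ T, ∀ (q : ℕ) (α : J → ℂ), IsWeilSystem n₀ D q deg α →
        (∀ j, lam j t ^ e = α j ^ 2 / (q : ℂ) ^ deg j) →
        (∃ m : J → ℤ, (∃ t' ∈ T, ∏ j, lam j t' ^ m j ≠ 1) ∧
          ∃ n : ℕ, 0 < n ∧ (∏ j, lam j t ^ m j) ^ n = 1) → clp N₁ M c (plusM (R t)) = 0 := by
  classical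
  obtain ⟨A, N, hN, hA, hA'⟩ := exists_tests J n₀ D deg
    fun m => ∀ t' ∈ T, ∏ j, lam j t' ^ m j = 1
  let N₁ := ∑ m ∈ A, ∑ j, (m j).natAbs
  let M := e * N
  have hM : 0 < M := Nat.mul_pos he hN
  let Z : Finset (Fin N₁ → J ⊕ (J ⊕ Unit)) := Finset.univ.filter fun x => ∀ t : T, h.chi x t = 1
  have hT : ∀ t : T, clp N₁ M Z.card (plusM (R t)) =
      ∏ x ∈ Finset.univ \ Z, (1 - (h.chi x t) ^ M) := by
    intro t
    have h1 : plusM P' * plusM P = 1 := by rw [← plusM_mul, h.inv, plusM_one]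
    rw [h.eq' t.2, plusM_mul, plusM_mul, clp_conj h1, plusM_diagonal, clp_diagonal]
    · rfl
    · intro x hx
      have h2 : h.chi x t = 1 := (Finset.mem_filter.mp hx).2 t
      have h3 : (∏ a, plusD (fun j => lam j t) (x a)) = 1 := h2
      rw [h3, one_pow]
  refine ⟨N₁, M, Z.card, ?_, ?_⟩
  · obtain ⟨t, ht⟩ := exists_generic (Y := {x // x ∉ Z}) (fun x => h.chi x.1)
      (fun x => h.continuous_chi hR x.1) (by
        intro x
        by_contra hcon
        push Not at hcon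
        exact x.2 (Finset.mem_filter.mpr ⟨Finset.mem_univ _, hcon⟩)) (M := M) (by omega)
    refine ⟨t, ?_⟩
    rw [hT, Finset.prod_ne_zero_iff]
    intro x hx
    have h2 := ht ⟨x, (Finset.mem_sdiff.mp hx).2⟩
    exact sub_ne_zero.mpr (Ne.symm h2)
  · intro t ht q α hα hlam hex
    have hgam : ∀ m : J → ℤ, IsWeilSystem.gam q deg α m = (∏ j, lam j t ^ m j) ^ e := by
      intro m
      unfold IsWeilSystem.gam
      rw [← Finset.prod_pow]
      refine Finset.prod_congr rfl fun j _ => ?_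
      rw [← hlam j, ← zpow_natCast (lam j t), ← zpow_natCast (lam j t ^ m j), ← zpow_mul,
        ← zpow_mul, mul_comm]
    obtain ⟨m, ⟨t', ht', hm⟩, n, hn, hmn⟩ := hex
    obtain ⟨m', hm'A, hm'⟩ := hA' q α hα ⟨m, fun hcon => hm (hcon t' ht'), n, hn, by
      rw [hgam, ← pow_mul, mul_comm, pow_mul, hmn, one_pow]⟩
    obtain ⟨x, hx⟩ := exists_word m' N₁
      (Finset.single_le_sum (f := fun m : J → ℤ => ∑ j, (m j).natAbs)
        (fun _ _ => Nat.zero_le _) hm'A)
    have hxZ : x ∉ Z := by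
      intro hcon
      refine hA m' hm'A fun t'' ht'' => ?_
      rw [← hx (fun j => lam j t'') (h.norm t'' ht'')]
      exact (Finset.mem_filter.mp hcon).2 ⟨t'', ht''⟩
    have h1 := hT ⟨t, ht⟩
    rw [h1]
    refine Finset.prod_eq_zero (Finset.mem_sdiff.mpr ⟨Finset.mem_univ x, hxZ⟩) ?_
    have h2 : h.chi x ⟨t, ht⟩ = ∏ j, lam j t ^ m' j := hx (fun j => lam j t) (h.norm t ht)
    rw [h2]
    have h3 : (∏ j, lam j t ^ m' j) ^ M = 1 := by
      show (∏ j, lam j t ^ m' j) ^ (e * N) = 1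
      rw [pow_mul, ← hgam, hm']
    rw [h3, sub_self]

end Diagonalises

end Pool.Agent.Y136
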