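import Pool.Agent.Y136.MG.Defs

/-!
# Varieties over number fields with compact `l`-adic images: definitions
-/

open CategoryTheory AlgebraicGeometry Polynomial

universe u v

namespace Pool.Agent.Y136

open Pool.Agent.H914 Pool.Agent.W534 VarClass Obj WeilCohomology

/-- The entries of the matrices `r i γ` and `r i γ⁻¹`. -/
def entries {Γ K : Type*} [Group Γ] [CommRing K] {I : Type} {J : I → Type} [∀ i, Fintype (J i)]
    [∀ i, DecidableEq (J i)] (r : ∀ i, Γ →* Matrix (J i) (J i) K) (γ : Γ) :
    (Σ i, J i × J i × Bool) → K :=
  fun x => r x.1 (if x.2.2.2 then γ else γ⁻¹) x.2.1 x.2.2.1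

/-- The image of `Γ` under the representations `r i` and the image of `G` under the representations
`ρ i` have the same Zariski closure: a polynomial in the entries of the matrices of `γ` and `γ⁻¹`
vanishes on `Γ` if and only if it vanishes on `G`. (If `G` is compact and the matrices `ρ i g` are
unitary, then this Zariski closure is the complexification of `G`.) -/
def SameClosure {Γ G : Type*} [Group Γ] [Group G] {I : Type} {J : I → Type} [∀ i, Fintype (J i)]
    [∀ i, DecidableEq (J i)] (r : ∀ i, Γ →* Matrix (J i) (J i) ℂ)
    (ρ : ∀ i, G →* Matrix (J i) (J i) ℂ) : Prop :=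
  ∀ Q : MvPolynomial (Σ i, J i × J i × Bool) ℂ,
    (∀ γ, MvPolynomial.eval (entries r γ) Q = 0) ↔ ∀ g, MvPolynomial.eval (entries ρ g) Q = 0

/-- The matrices of a representation over the field `F`, as complex matrices, when `F` is
identified with the field of the complex numbers by `σ`. -/
noncomputable def mapRep {F : Type*} [Field F] (σ : F ≃+* ℂ) {Γ : Type*} [Group Γ] {J : Type}
    [Fintype J] [DecidableEq J] (r : Γ →* Matrix J J F) : Γ →* Matrix J J ℂ :=
  (σ.toRingHom.mapMatrix : Matrix J J F →+* Matrix J J ℂ).toMonoidHom.comp r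

/-- The group `G` acts on the graded algebra `A` (the cohomology of a variety, with the trace map
`τ`), by the matrices `ρ g` with respect to the basis `b`: the vectors `b j` are homogeneous of
degree `deg j`, and the group preserves the intersection form `τ (x * y)`. -/
def IsGroupOf {F A : Type*} [Field F] [Ring A] [Algebra F A] (gr : ℕ → Submodule F A)
    (τ : A →ₗ[F] F) (σ : F ≃+* ℂ) {G : Type*} [Group G] {J : Type} [Fintype J] [DecidableEq J]
    (deg : J → ℕ) (ρ : G →* Matrix J J ℂ) (b : Module.Basis J F A) : Prop :=
  (∀ j, b j ∈ gr (deg j)) ∧ ∀ g, PreservesPairing τ (matOp σ b (ρ g))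

/-- `fr` is the Frobenius endomorphism of a model of `X` over the field with `p ^ m = z ^ 2`
elements, and the matrix `A` is its semisimple part, normalised by half Tate twists, by means of the
square root `z` of `p ^ m` (which may be the negative one).
* `frobenius`: some iterate of `fr` is an iterate of the Frobenius endomorphism of the system `Φ`;
* `isFrobOp`: the semisimple part of the operator `fr^*` is, on the cohomology of degree `n`, the
  operator with the matrix `A` multiplied by `z ^ n`; the characteristic polynomials of `fr^*` are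
  integral and its slopes are in `(1 / D) ℤ`. -/
structure IsFrobeniusAt {k : Type u} [Field k] {𝒱 : VarClass k} {ops : CycleOps 𝒱}
    {W : WeilCohomology.{u, v} ops} {p : ℕ} (Φ : FrobSystem W p) (σ : W.K ≃+* ℂ) (D m : ℕ) (z : ℂ)
    {X : 𝒱.Obj} (fr : X ⟶ X) {J : Type} [Fintype J] [DecidableEq J] (deg : J → ℕ)
    (b : Module.Basis J W.K (W.H X)) (A : Matrix J J ℂ) : Prop where
  frobenius : ∃ a c : ℕ, 0 < a ∧ 0 < c ∧ a * m = c * Φ.e X ∧
    W534.iter fr a = W534.iter (Φ.Fr X) c
  isFrobOp : IsFrobOp (W.gr X) ((p : W.K) ^ m) D (W.map fr).toLinearMap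
    (matOp σ b (A * Matrix.diagonal fun j => z ^ deg j))

end Pool.Agent.Y136
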