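import Mathlib

/-!
# Equidistribution and closed invariant sets of measure zero
-/

open MeasureTheory Filter Topology

namespace Pool.Agent.Y136

variable {Γ : Type*} [Group Γ] [TopologicalSpace Γ] [IsTopologicalGroup Γ] [CompactSpace Γ]
  [T2Space Γ] [MeasurableSpace Γ] [BorelSpace Γ] (μ : Measure Γ) [μ.IsHaarMeasure]
  [IsProbabilityMeasure μ]

omit [T2Space Γ] in
/-- The Haar measure of a compact group is right invariant. -/
lemma isMulRightInvariant_of_compact : μ.IsMulRightInvariant := ⟨fun g => by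
  have h1 : IsProbabilityMeasure (μ.map (· * g)) := Measure.isProbabilityMeasure_map (by fun_prop)
  exact Measure.isHaarMeasure_eq_of_isProbabilityMeasure _ _⟩

variable [SecondCountableTopology Γ]

/-- A closed subset of measure zero which is stable under conjugation is contained in the set where
a nonnegative continuous class function with small integral is at least one. -/
theorem exists_class_function (Z : Set Γ) (hZ : IsClosed Z) (hconj : ∀ g ∈ Z, ∀ k, k * g * k⁻¹ ∈ Z)
    (h0 : μ Z = 0) {ε : ℝ} (hε : 0 < ε) : ∃ f : C(Γ, ℝ), (∀ g k, f (k * g * k⁻¹) = f g) ∧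
      (∀ g, 0 ≤ f g) ∧ (∀ g, f g ≤ 1) ∧ (∀ g ∈ Z, f g = 1) ∧ ∫ g, f g ∂μ < ε := by
  classical
  have hri : μ.IsMulRightInvariant := isMulRightInvariant_of_compact μ
  -- an open neighbourhood of small measure
  obtain ⟨U, hZU, hU, hμU⟩ : ∃ U, Z ⊆ U ∧ IsOpen U ∧ μ U < ENNReal.ofReal (ε / 2) := by
    refine Set.exists_isOpen_lt_of_lt Z _ ?_
    rw [h0]
    exact ENNReal.ofReal_pos.mpr (by linarith)
  obtain ⟨f, hf0, hf1, hf2⟩ := exists_continuous_zero_one_of_isClosed (hU.isClosed_compl) hZ
    (by
      rw [Set.disjoint_left]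
      intro x hx hx'
      exact hx (hZU hx'))
  -- the average over the conjugates
  let F : Γ × Γ → ℝ := fun x => f (x.2 * x.1 * x.2⁻¹)
  have hF : Continuous F := by fun_prop
  have hcont : Continuous fun g => ∫ k, f (k * g * k⁻¹) ∂μ := by
    refine continuous_of_dominated (F := fun g k => f (k * g * k⁻¹)) (bound := fun _ => 1) ?_ ?_ ?_ ?_
    · intro g
      exact (by fun_prop : Continuous fun k => f (k * g * k⁻¹)).aestronglyMeasurable
    · intro g
      refine Filter.Eventually.of_forall fun k => ?_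
      rw [Real.norm_of_nonneg (hf2 _).1]
      exact (hf2 _).2
    · exact integrable_const _
    · refine Filter.Eventually.of_forall fun k => ?_
      fun_prop
  refine ⟨⟨fun g => ∫ k, f (k * g * k⁻¹) ∂μ, hcont⟩, ?_, ?_, ?_, ?_, ?_⟩
  · intro g h
    show ∫ k, f (k * (h * g * h⁻¹) * k⁻¹) ∂μ = ∫ k, f (k * g * k⁻¹) ∂μ
    rw [← integral_mul_right_eq_self (μ := μ) (fun k => f (k * g * k⁻¹)) h]
    refine integral_congr_ae (Filter.Eventually.of_forall fun k => ?_)
    show f (k * (h * g * h⁻¹) * k⁻¹) = f (k * h * g * (k * h)⁻¹)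
    congr 1
    group
  · intro g
    exact integral_nonneg fun k => (hf2 _).1
  · intro g
    show ∫ k, f (k * g * k⁻¹) ∂μ ≤ 1
    calc ∫ k, f (k * g * k⁻¹) ∂μ ≤ ∫ _, (1 : ℝ) ∂μ := by
          refine integral_mono_of_nonneg (Filter.Eventually.of_forall fun k => (hf2 _).1)
            (integrable_const _) (Filter.Eventually.of_forall fun k => (hf2 _).2)
      _ = 1 := by simp
  · intro g hg
    show ∫ k, f (k * g * k⁻¹) ∂μ = 1
    have h1 : ∀ k, f (k * g * k⁻¹) = 1 := fun k => hf1 (hconj g hg k)
    simp [h1]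
  · show ∫ g, ∫ k, f (k * g * k⁻¹) ∂μ ∂μ < ε
    have hint : Integrable (Function.uncurry fun g k => f (k * g * k⁻¹)) (μ.prod μ) := by
      refine Integrable.of_bound (C := 1) (Continuous.aestronglyMeasurable ?_)
        (Filter.Eventually.of_forall fun x => ?_)
      · show Continuous fun x : Γ × Γ => f (x.2 * x.1 * x.2⁻¹)
        fun_prop
      · show ‖f (x.2 * x.1 * x.2⁻¹)‖ ≤ 1
        rw [Real.norm_of_nonneg (hf2 _).1]
        exact (hf2 _).2
    rw [integral_integral_swap hint]
    have h1 : ∀ k, ∫ g, f (k * g * k⁻¹) ∂μ = ∫ g, f g ∂μ := by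
      intro k
      have h2 : ∫ g, f (k * g * k⁻¹) ∂μ = ∫ g, f (g * k⁻¹) ∂μ :=
        integral_mul_left_eq_self (μ := μ) (fun g => f (g * k⁻¹)) k
      rw [h2, integral_mul_right_eq_self (μ := μ) (fun g => f g)]
    simp only [h1]
    rw [integral_const]
    have h3 : ∫ g, f g ∂μ ≤ (μ U).toReal := by
      have h4 : ∫ g, f g ∂μ ≤ ∫ g, U.indicator (fun _ => (1 : ℝ)) g ∂μ := by
        refine integral_mono_of_nonneg (Filter.Eventually.of_forall fun k => (hf2 _).1)
            ((integrable_const _).indicator hU.measurableSet)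
            (Filter.Eventually.of_forall fun g => ?_)
        show f g ≤ U.indicator (fun _ => (1 : ℝ)) g
        by_cases hg : g ∈ U
        · rw [Set.indicator_of_mem hg]
          exact (hf2 _).2
        · rw [Set.indicator_of_notMem hg]
          exact (hf0 hg).le
      refine h4.trans (le_of_eq ?_)
      rw [integral_indicator hU.measurableSet]
      simp [Measure.real]
    have h5 : (μ U).toReal ≤ ε / 2 := by
      have := ENNReal.toReal_mono ENNReal.ofReal_ne_top hμU.le
      rwa [ENNReal.toReal_ofReal (by linarith)] at this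
    simp only [Measure.real, measure_univ, ENNReal.toReal_one, one_smul]
    linarith

/-- If the elements `φ s` are equidistributed, for continuous class functions, with respect to a
sequence of probability measures on the set of the parameters, then the measures of the set of
parameters `s` with `φ s` in a closed conjugation invariant set of measure zero tend to zero. -/
theorem density_zero_closed {S : Type*} [MeasurableSpace S] [DiscreteMeasurableSpace S] (φ : S → Γ)
    {ι : Type*} (l : Filter ι) (P : ι → Measure S) [∀ i, IsProbabilityMeasure (P i)]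
    (heq : ∀ f : C(Γ, ℝ), (∀ g k, f (k * g * k⁻¹) = f g) →
      Tendsto (fun i => ∫ s, f (φ s) ∂(P i)) l (𝓝 (∫ g, f g ∂μ)))
    (Z : Set Γ) (hZ : IsClosed Z) (hconj : ∀ g ∈ Z, ∀ k, k * g * k⁻¹ ∈ Z) (h0 : μ Z = 0) :
    Tendsto (fun i => P i {s | φ s ∈ Z}) l (𝓝 0) := by
  rw [ENNReal.tendsto_nhds_zero]
  intro ε hε
  by_cases hεt : ε = ⊤
  · rw [hεt]; simp
  have hε' : 0 < ε.toReal := ENNReal.toReal_pos hε.ne' hεt
  obtain ⟨f, hf, hf0, hf1, hfZ, hint⟩ := exists_class_function μ Z hZ hconj h0 hε'
  filter_upwards [(tendsto_order.mp (heq f hf)).2 _ hint] with i hi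
  have hint : Integrable (fun s => f (φ s)) (P i) := by
    refine Integrable.of_bound (Measurable.of_discrete).aestronglyMeasurable 1
      (Filter.Eventually.of_forall fun s => ?_)
    rw [Real.norm_of_nonneg (hf0 _)]
    exact hf1 _
  have h4 := mul_meas_ge_le_integral_of_nonneg
    (Filter.Eventually.of_forall fun s => hf0 (φ s)) hint 1
  rw [one_mul] at h4
  have h5 : (P i).real {s | φ s ∈ Z} ≤ (P i).real {s | 1 ≤ f (φ s)} := by
    refine measureReal_mono fun s hs => ?_
    exact (hfZ _ hs).ge
  have h6 : (P i).real {s | φ s ∈ Z} ≤ ε.toReal := (h5.trans h4).trans hi.le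
  rw [← ENNReal.ofReal_toReal (measure_ne_top (P i) _), ← ENNReal.ofReal_toReal hεt]
  exact ENNReal.ofReal_le_ofReal h6

end Pool.Agent.Y136
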