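import Pool.Agent.TH658.Eq.Newt
import Pool.Agent.Y136.MG.Torus

/-!
# Class polynomials depend on the characteristic polynomials only
-/

open Polynomial
open scoped Matrix

namespace Pool.Agent.Y136

section Traces

variable {ι : Type} [Fintype ι] [DecidableEq ι] {K : Type} [Field K]

/-- The characteristic polynomial determines the traces of the powers. -/
lemma trace_pow_eq {A B : Matrix ι ι K} (h : A.charpoly = B.charpoly) (k : ℕ) :
    (A ^ k).trace = (B ^ k).trace := by
  have hrev : A.charpolyRev = B.charpolyRev := by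
    rw [← Matrix.reverse_charpoly, ← Matrix.reverse_charpoly, h]
  induction k using Nat.strong_induction_on with
  | _ k ih =>
    rcases k with _ | k
    · rw [pow_zero, pow_zero]
    · have h1 := Pool.Agent.TH658.Eq.newton A k
      have h2 := Pool.Agent.TH658.Eq.newton B k
      rw [hrev, h2] at h1
      have h3 : ∀ C : Matrix ι ι K, ∑ p ∈ Finset.HasAntidiagonal.antidiagonal k,
          B.charpolyRev.coeff p.1 * (C ^ (p.2 + 1)).trace = (C ^ (k + 1)).trace +
          ∑ p ∈ (Finset.HasAntidiagonal.antidiagonal k).erase (0, k),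
            B.charpolyRev.coeff p.1 * (C ^ (p.2 + 1)).trace := by
        intro C
        have h4 : ((0, k) : ℕ × ℕ) ∈ Finset.HasAntidiagonal.antidiagonal k :=
          Finset.HasAntidiagonal.mem_antidiagonal.mpr (zero_add k)
        rw [← Finset.add_sum_erase _ _ h4]
        congr 1
        rw [coeff_zero_eq_eval_zero, Matrix.eval_charpolyRev, one_mul]
      rw [h3 A, h3 B] at h1
      have h5 : ∑ p ∈ (Finset.HasAntidiagonal.antidiagonal k).erase (0, k),
            B.charpolyRev.coeff p.1 * (A ^ (p.2 + 1)).trace =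
          ∑ p ∈ (Finset.HasAntidiagonal.antidiagonal k).erase (0, k),
            B.charpolyRev.coeff p.1 * (B ^ (p.2 + 1)).trace := by
        refine Finset.sum_congr rfl fun p hp => ?_
        obtain ⟨hp1, hp2⟩ := Finset.mem_erase.mp hp
        have hp3 := Finset.HasAntidiagonal.mem_antidiagonal.mp hp2
        have hp4 : p.1 ≠ 0 := by
          intro h0
          apply hp1
          ext
          · exact h0
          · show p.2 = k
            omega
        rw [ih (p.2 + 1) (by omega)]
      rw [h5] at h1
      have h6 := neg_injective h1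
      exact (add_right_cancel h6).symm

/-- The characteristic polynomial of a matrix determines the one of the inverse matrix. -/
lemma charpoly_inv_eq {A B A' B' : Matrix ι ι K} (h : A.charpoly = B.charpoly)
    (hA : A * A' = 1) (hB : B * B' = 1) : A'.charpoly = B'.charpoly := by
  have hA' : A' = A⁻¹ := (Matrix.inv_eq_right_inv hA).symm
  have hB' : B' = B⁻¹ := (Matrix.inv_eq_right_inv hB).symm
  have hAu : IsUnit A := by
    rw [Matrix.isUnit_iff_isUnit_det]
    exact Matrix.isUnit_det_of_right_inverse hA
  have hBu : IsUnit B := by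
    rw [Matrix.isUnit_iff_isUnit_det]
    exact Matrix.isUnit_det_of_right_inverse hB
  have hdet : A.det = B.det := by
    rw [Matrix.det_eq_sign_charpoly_coeff, h, ← Matrix.det_eq_sign_charpoly_coeff]
  rw [hA', hB', Matrix.charpoly_inv A hAu, Matrix.charpoly_inv B hBu, hdet,
    ← Matrix.reverse_charpoly, ← Matrix.reverse_charpoly, h]

lemma tpow_pow {J S : Type*} [CommRing S] [Fintype J] [DecidableEq J] (N : ℕ) (A : Matrix J J S)
    (k : ℕ) : tpow N A ^ k = tpow N (A ^ k) := by
  induction k with
  | zero => rw [pow_zero, pow_zero, tpow_one]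
  | succ k ih => rw [pow_succ, ih, pow_succ, tpow_mul]

lemma trace_tpow {J S : Type*} [CommRing S] [Fintype J] [DecidableEq J] (N : ℕ)
    (A : Matrix J J S) : (tpow N A).trace = A.trace ^ N := by
  have h1 : A.trace ^ N = ∏ _a : Fin N, ∑ j, A j j := by
    rw [Finset.prod_const, Finset.card_univ, Fintype.card_fin]
    rfl
  rw [h1, Finset.prod_univ_sum, Fintype.piFinset_univ]
  rfl

/-- The coefficients `clp` depend on the traces of the powers only. -/
lemma clp_eq_of_traces {J : Type} [Fintype J] [DecidableEq J] [CharZero K] (N M c : ℕ)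
    {A B : Matrix J J K} (h : ∀ k : ℕ, (A ^ k).trace = (B ^ k).trace) :
    clp N M c A = clp N M c B := by
  have h1 : (tpow N A ^ M).charpoly = (tpow N B ^ M).charpoly := by
    refine Pool.Agent.TH658.Eq.charpoly_eq_of_traces _ _ fun k => ?_
    rw [← pow_mul, ← pow_mul, tpow_pow, tpow_pow, trace_tpow, trace_tpow, h]
  have h2 : ∀ C : Matrix J J K, (tpow N C ^ M - 1).charpoly =
      (tpow N C ^ M).charpoly.comp (X + Polynomial.C 1) := by
    intro C
    have h3 : (1 : Matrix (Fin N → J) (Fin N → J) K) = Matrix.scalar (Fin N → J) 1 :=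
      (map_one _).symm
    rw [h3, Matrix.charpoly_sub_scalar]
  unfold clp
  rw [h2, h2, h1]

end Traces

section PlusI

variable {Γ : Type*} [Group Γ] {J : Type} [Fintype J] [DecidableEq J]

/-- The sum of a representation, its contragredient and the trivial representation. -/
noncomputable def plusI (R : Γ →* Matrix J J ℂ) :
    Γ →* Matrix (J ⊕ (J ⊕ Unit)) (J ⊕ (J ⊕ Unit)) ℂ where
  toFun g := Matrix.fromBlocks (R g) 0 0 (Matrix.fromBlocks (R g⁻¹).transpose 0 0 1)
  map_one' := by
    rw [inv_one, map_one, Matrix.transpose_one, Matrix.fromBlocks_one, Matrix.fromBlocks_one]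
  map_mul' a b := by
    rw [Matrix.fromBlocks_multiply, Matrix.fromBlocks_multiply]
    simp [Matrix.transpose_mul]

lemma plusI_eq (R : Γ →* Matrix J J ℂ) (hR : ∀ g, R g ∈ Matrix.unitaryGroup J ℂ) (g : Γ) :
    plusI R g = plusM (R g) := by
  have h1 : R g⁻¹ = (R g)ᴴ := by
    have h2 : R g * R g⁻¹ = 1 := by rw [← map_mul, mul_inv_cancel, map_one]
    have h3 : (R g)ᴴ * R g = 1 := Matrix.mem_unitaryGroup_iff'.mp (hR g)
    calc R g⁻¹ = ((R g)ᴴ * R g) * R g⁻¹ := by rw [h3, one_mul]
      _ = (R g)ᴴ := by rw [mul_assoc, h2, mul_one]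
  show Matrix.fromBlocks (R g) 0 0 (Matrix.fromBlocks (R g⁻¹).transpose 0 0 1) = plusM (R g)
  unfold plusM
  rw [h1]
  rfl

lemma trace_plusI (R : Γ →* Matrix J J ℂ) (g : Γ) :
    (plusI R g).trace = (R g).trace + ((R g⁻¹).trace + 1) := by
  show (Matrix.fromBlocks (R g) 0 0 (Matrix.fromBlocks (R g⁻¹).transpose 0 0 1)).trace = _
  simp [Matrix.trace]

/-- The class polynomials at elements of two groups with matrices with the same characteristic
polynomials. -/
lemma clp_plusI_eq {G : Type*} [Group G] (R : Γ →* Matrix J J ℂ) (R' : G →* Matrix J J ℂ) (γ : Γ)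
    (g : G) (h : (R γ).charpoly = (R' g).charpoly) (N M c : ℕ) :
    clp N M c (plusI R γ) = clp N M c (plusI R' g) := by
  have hinv : (R γ⁻¹).charpoly = (R' g⁻¹).charpoly :=
    charpoly_inv_eq h (by rw [← map_mul, mul_inv_cancel, map_one])
      (by rw [← map_mul, mul_inv_cancel, map_one])
  refine clp_eq_of_traces N M c fun k => ?_
  rw [← map_pow, ← map_pow, trace_plusI, trace_plusI, ← inv_pow, ← inv_pow, map_pow, map_pow,
    map_pow, map_pow, trace_pow_eq h, trace_pow_eq hinv]

end PlusI

end Pool.Agent.Y136
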