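import Pool.Agent.Y136.AR.Defs
import Pool.Agent.Y136.AR.Trace
import Pool.Agent.Y136.MG.Final

/-!
# Polynomials in the entries of the matrices
-/

open MeasureTheory

namespace Pool.Agent.Y136

variable {I : Type} [Fintype I] [DecidableEq I] {J : I → Type} [∀ i, Fintype (J i)]
  [∀ i, DecidableEq (J i)]

/-- The letters of the total representation, its contragredient, and the trivial one. -/
abbrev Letters (J : I → Type) : Type := (Σ i, J i) ⊕ ((Σ i, J i) ⊕ Unit)

/-- The entries of the matrices of the total representation are entries of the matrices of the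
representations. -/
lemma exists_entry (a b : Letters J) :
    ∃ P : MvPolynomial (Σ i, J i × J i × Bool) ℂ, ∀ (Γ : Type) [Group Γ]
      (r : ∀ i, Γ →* Matrix (J i) (J i) ℂ) (γ : Γ),
      MvPolynomial.eval (entries r γ) P = plusI (totRep r) γ a b := by
  rcases a with x | x | _ <;> rcases b with y | y | _
  · obtain ⟨i, j⟩ := x
    obtain ⟨i', l⟩ := y
    by_cases h : i = i'
    · subst h
      refine ⟨MvPolynomial.X ⟨i, j, l, true⟩, fun Γ _ r γ => ?_⟩
      rw [MvPolynomial.eval_X]
      exact (Matrix.blockDiagonal'_apply_eq (fun i => r i γ) i j l).symm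
    · refine ⟨0, fun Γ _ r γ => ?_⟩
      rw [map_zero]
      exact (Matrix.blockDiagonal'_apply_ne (fun i => r i γ) j l h).symm
  · exact ⟨0, fun Γ _ r γ => map_zero _⟩
  · exact ⟨0, fun Γ _ r γ => map_zero _⟩
  · exact ⟨0, fun Γ _ r γ => map_zero _⟩
  · obtain ⟨i, j⟩ := x
    obtain ⟨i', l⟩ := y
    by_cases h : i' = i
    · subst h
      refine ⟨MvPolynomial.X ⟨i', l, j, false⟩, fun Γ _ r γ => ?_⟩
      rw [MvPolynomial.eval_X]
      exact (Matrix.blockDiagonal'_apply_eq (fun i => r i γ⁻¹) i' l j).symm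
    · refine ⟨0, fun Γ _ r γ => ?_⟩
      rw [map_zero]
      exact (Matrix.blockDiagonal'_apply_ne (fun i => r i γ⁻¹) l j h).symm
  · exact ⟨0, fun Γ _ r γ => map_zero _⟩
  · exact ⟨0, fun Γ _ r γ => map_zero _⟩
  · exact ⟨0, fun Γ _ r γ => map_zero _⟩
  · exact ⟨1, fun Γ _ r γ => map_one _⟩

/-- The substitution of the entries. -/
lemma exists_subst (Q : MvPolynomial (Letters J × Letters J) ℂ) :
    ∃ P : MvPolynomial (Σ i, J i × J i × Bool) ℂ, ∀ (Γ : Type) [Group Γ]
      (r : ∀ i, Γ →* Matrix (J i) (J i) ℂ) (γ : Γ),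
      MvPolynomial.eval (entries r γ) P = evAt (plusI (totRep r)) γ Q := by
  choose P hP using fun x : Letters J × Letters J => exists_entry x.1 x.2
  refine ⟨MvPolynomial.aeval P Q, fun Γ _ r γ => ?_⟩
  have h1 : (MvPolynomial.eval (entries r γ)).comp
      (MvPolynomial.aeval (R := ℂ) P).toRingHom = evAt (plusI (totRep r)) γ := by
    refine MvPolynomial.ringHom_ext ?_ ?_
    · intro c
      simp [evAt]
    · intro x
      have h2 := hP x Γ r γ
      simp [evAt, h2]
  exact congrArg (fun f => f Q) h1

lemma trace_totRep {Γ : Type*} [Group Γ] (r : ∀ i, Γ →* Matrix (J i) (J i) ℂ) (γ : Γ) :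
    (totRep r γ).trace = ∑ i, (r i γ).trace :=
  Matrix.trace_blockDiagonal' fun i => r i γ

/-- The class polynomials at elements of two groups with matrices with the same characteristic
polynomials. -/
lemma clp_tot_eq {Γ G : Type*} [Group Γ] [Group G] (r : ∀ i, Γ →* Matrix (J i) (J i) ℂ)
    (ρ : ∀ i, G →* Matrix (J i) (J i) ℂ) (γ : Γ) (g : G)
    (h : ∀ i, (r i γ).charpoly = (ρ i g).charpoly) (N M c : ℕ) :
    clp N M c (plusI (totRep r) γ) = clp N M c (plusI (totRep ρ) g) := by
  have hinv : ∀ i, (r i γ⁻¹).charpoly = (ρ i g⁻¹).charpoly := fun i =>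
    charpoly_inv_eq (h i) (by rw [← map_mul, mul_inv_cancel, map_one])
      (by rw [← map_mul, mul_inv_cancel, map_one])
  refine clp_eq_of_traces N M c fun k => ?_
  rw [← map_pow, ← map_pow, trace_plusI, trace_plusI, ← inv_pow, ← inv_pow, trace_totRep,
    trace_totRep, trace_totRep, trace_totRep]
  congr 1
  · refine Finset.sum_congr rfl fun i _ => ?_
    rw [map_pow, map_pow, trace_pow_eq (h i)]
  · congr 1
    refine Finset.sum_congr rfl fun i _ => ?_
    rw [map_pow, map_pow, trace_pow_eq (hinv i)]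

variable {Γ : Type} [Group Γ] [TopologicalSpace Γ] [IsTopologicalGroup Γ] {F : Type*} [Field F]
  [TopologicalSpace F] [IsTopologicalRing F] [T1Space F]

omit [Fintype I] [DecidableEq I] in
/-- The zero sets of the polynomials in the entries are closed. -/
lemma isClosed_entries (σ : F ≃+* ℂ) (r : ∀ i, Γ →* Matrix (J i) (J i) F)
    (hr : ∀ i, Continuous (r i)) (Q : MvPolynomial (Σ i, J i × J i × Bool) ℂ) :
    IsClosed {γ | MvPolynomial.eval (entries (fun i => mapRep σ (r i)) γ) Q = 0} := by
  let Q' : MvPolynomial (Σ i, J i × J i × Bool) F := MvPolynomial.map σ.symm.toRingHom Q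
  have h1 : ∀ γ, MvPolynomial.eval (entries (fun i => mapRep σ (r i)) γ) Q =
      σ (MvPolynomial.eval (entries r γ) Q') := by
    intro γ
    have h2 : (MvPolynomial.eval (entries (fun i => mapRep σ (r i)) γ)) =
        (σ.toRingHom.comp (MvPolynomial.eval (entries r γ))).comp
          (MvPolynomial.map σ.symm.toRingHom) := by
      refine MvPolynomial.ringHom_ext ?_ ?_
      · intro c
        simp
      · intro x
        simp only [MvPolynomial.eval_X, RingHom.comp_apply, MvPolynomial.map_X]
        rfl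
    exact congrArg (fun f => f Q) h2
  have h3 : Continuous fun γ => MvPolynomial.eval (entries r γ) Q' := by
    refine (MvPolynomial.continuous_eval Q').comp (continuous_pi fun x => ?_)
    rcases x with ⟨i, j, l, _ | _⟩
    · exact ((hr i).comp continuous_inv).matrix_elem j l
    · exact (hr i).matrix_elem j l
  have h4 : {γ | MvPolynomial.eval (entries (fun i => mapRep σ (r i)) γ) Q = 0} =
      (fun γ => MvPolynomial.eval (entries r γ) Q') ⁻¹' {0} := by
    ext γ
    rw [Set.mem_preimage, Set.mem_singleton_iff]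
    show _ = 0 ↔ _
    rw [h1, map_eq_zero_iff σ σ.injective]
  rw [h4]
  exact isClosed_singleton.preimage h3

end Pool.Agent.Y136
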