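import Pool.Agent.Y136.MG.Null

/-!
# Zero sets of polynomial functions on compact groups which are connected for the Zariski topology

Let `R` be a representation of a group `G` with an invariant finite measure, such that the zero sets
of the polynomials in the matrix coefficients are measurable and such that the image of `R` is
irreducible for the Zariski topology. Then a polynomial which does not vanish identically vanishes
on a set of measure zero only. No topology on the field of coefficients is used.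
-/

open MeasureTheory

namespace Pool.Agent.Y136

variable {G : Type*} [Group G] {J : Type*} [Fintype J] [DecidableEq J] (R : G →* Matrix J J ℂ)
  [TopologicalSpace G] [IsTopologicalGroup G] [MeasurableSpace G] [BorelSpace G]
  (μ : Measure G) [IsFiniteMeasure μ] [μ.IsMulLeftInvariant]

theorem null_zeros_of_irreducible
    (hcl : ∀ Q : MvPolynomial (J × J) ℂ, IsClosed {g | evAt R g Q = 0})
    (hirr : ∀ Q Q' : MvPolynomial (J × J) ℂ, (∀ g, evAt R g (Q * Q') = 0) →
      (∀ g, evAt R g Q = 0) ∨ ∀ g, evAt R g Q' = 0)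
    (Q : MvPolynomial (J × J) ℂ) (hQ : ∃ g, evAt R g Q ≠ 0) : μ {g | evAt R g Q = 0} = 0 := by
  classical
  by_contra hpos
  let 𝒮 : Set (Ideal (MvPolynomial (J × J) ℂ)) := {I | Q ∈ I ∧ μ (zset R I) ≠ 0}
  have hne : 𝒮.Nonempty := by
    refine ⟨Ideal.span {Q}, Ideal.mem_span_singleton_self Q, ?_⟩
    have h1 : zset R (Ideal.span {Q}) = {g | evAt R g Q = 0} := by
      ext g
      constructor
      · intro hg
        exact hg Q (Ideal.mem_span_singleton_self Q)
      · intro hg
        have h2 : Ideal.span {Q} ≤ RingHom.ker (evAt R g) := by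
          rw [Ideal.span_le, Set.singleton_subset_iff]
          exact hg
        exact fun Q' hQ' => h2 hQ'
    rw [h1]; exact hpos
  have hex : ∃ I : Ideal (MvPolynomial (J × J) ℂ), I ∈ 𝒮 ∧
      ∀ I' : Ideal (MvPolynomial (J × J) ℂ), I' ∈ 𝒮 → ¬ I < I' :=
    set_has_maximal_iff_noetherian.mpr
      (inferInstance : IsNoetherian (MvPolynomial (J × J) ℂ) (MvPolynomial (J × J) ℂ)) 𝒮 hne
  obtain ⟨I, ⟨hQI, hI⟩, hmax⟩ := hex
  set Z := zset R I with hZ
  have hZc : IsClosed Z := by
    have h1 : Z = ⋂ Q ∈ I, {g | evAt R g Q = 0} := by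
      ext g; simp [hZ, zset]
    rw [h1]
    exact isClosed_biInter fun Q _ => hcl Q
  -- translates
  have htr : ∀ (h : G) (s : Set G), μ ((fun g => h * g) ⁻¹' s) = μ s :=
    fun h s => measure_preimage_mul μ h s
  have hdich : ∀ h : G, μ (Z ∩ (fun g => h * g) ⁻¹' Z) ≠ 0 → ∀ z ∈ Z, h * z ∈ Z := by
    intro h hh z hz
    have h1 : Z ∩ (fun g => h * g) ⁻¹' Z = zset R (I ⊔ Ideal.map (trans R h) I) := by
      ext g
      rw [mem_zset_sup, mem_zset_map]
      rfl
    rw [h1] at hh
    have h2 : ¬ I < I ⊔ Ideal.map (trans R h) I :=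
      hmax (I ⊔ Ideal.map (trans R h) I) ⟨Ideal.mem_sup_left hQI, hh⟩
    have h3 : I ⊔ Ideal.map (trans R h) I = I := by
      by_contra hcon
      exact h2 (lt_of_le_of_ne le_sup_left (Ne.symm hcon))
    have h4 : Ideal.map (trans R h) I ≤ I := le_sup_right.trans (le_of_eq h3)
    exact (mem_zset_map R h z).mp (zset_anti R h4 hz)
  have hinv : ∀ h : G, μ (Z ∩ (fun g => h * g) ⁻¹' Z) = μ (Z ∩ (fun g => h⁻¹ * g) ⁻¹' Z) := by
    intro h
    rw [← htr h⁻¹ (Z ∩ (fun g => h * g) ⁻¹' Z)]
    congr 1
    ext g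
    simp only [Set.mem_preimage, Set.mem_inter_iff, mul_inv_cancel_left]
    exact and_comm
  let H : Subgroup G :=
    { carrier := {h | ∀ z, h * z ∈ Z ↔ z ∈ Z}
      mul_mem' := by
        intro a b ha hb z
        rw [mul_assoc, ha, hb]
      one_mem' := by intro z; rw [one_mul]
      inv_mem' := by
        intro a ha z
        rw [← ha, mul_inv_cancel_left] }
  have hH : ∀ h, h ∉ H → μ (Z ∩ (fun g => h * g) ⁻¹' Z) = 0 := by
    intro h hh
    by_contra hcon
    refine hh fun z => ⟨fun hz => ?_, fun hz => hdich h hcon z hz⟩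
    have h1 : μ (Z ∩ (fun g => h⁻¹ * g) ⁻¹' Z) ≠ 0 := by rw [← hinv h]; exact hcon
    have := hdich h⁻¹ h1 _ hz
    rwa [inv_mul_cancel_left] at this
  have hfin : Finite (G ⧸ H) := by
    by_contra hinf
    rw [not_finite_iff_infinite] at hinf
    let s : G ⧸ H → Set G := fun x => (fun g => x.out⁻¹ * g) ⁻¹' Z
    have hs : ∀ x, NullMeasurableSet (s x) μ := fun x =>
      (hZc.preimage (continuous_const_mul _)).measurableSet.nullMeasurableSet
    have hd : Pairwise (Function.onFun (AEDisjoint μ) s) := by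
      intro x y hxy
      show μ (s x ∩ s y) = 0
      have h1 : y.out⁻¹ * x.out ∉ H := by
        intro hmem
        apply hxy
        rw [← x.out_eq, ← y.out_eq]
        exact (QuotientGroup.eq.mpr hmem).symm
      rw [← htr x.out (s x ∩ s y), ← hH _ h1]
      congr 1
      ext g
      simp only [s, Set.mem_preimage, Set.mem_inter_iff, inv_mul_cancel_left, mul_assoc]
    have h2 := tsum_measure_le_measure_univ hs hd
    have h3 : ∀ x, μ (s x) = μ Z := fun x => htr _ Z
    simp only [h3] at h2
    rw [ENNReal.tsum_const_eq_top_of_ne_zero hI] at h2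
    exact (measure_ne_top μ Set.univ) (top_le_iff.mp h2)
  have hZne : Z.Nonempty := by
    by_contra hcon
    rw [Set.not_nonempty_iff_eq_empty] at hcon
    exact hI (by rw [hcon, measure_empty])
  obtain ⟨z, hz⟩ := hZne
  -- the group is covered by finitely many translates of the zero set
  have hfT : Fintype (G ⧸ H) := Fintype.ofFinite _
  have hcov : ∀ g : G, ∃ x : G ⧸ H, x.out⁻¹ * g ∈ Z := by
    intro g
    refine ⟨QuotientGroup.mk (g * z⁻¹), ?_⟩
    have h1 : (QuotientGroup.mk (g * z⁻¹) : G ⧸ H).out⁻¹ * (g * z⁻¹) ∈ H :=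
      QuotientGroup.eq.mp (QuotientGroup.mk (g * z⁻¹) : G ⧸ H).out_eq
    have h2 := (h1 z).mpr hz
    rwa [mul_assoc, inv_mul_cancel_right] at h2
  have hprod : ∀ s : Finset (G ⧸ H), (∀ g, evAt R g (∏ x ∈ s, trans R x.out⁻¹ Q) = 0) →
      ∃ x ∈ s, ∀ g, evAt R g (trans R x.out⁻¹ Q) = 0 := by
    intro s
    induction s using Finset.induction_on with
    | empty =>
      intro h
      have := h 1
      rw [Finset.prod_empty, map_one] at this
      exact absurd this one_ne_zero
    | insert a s ha ih =>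
      intro h
      rw [Finset.prod_insert ha] at h
      rcases hirr _ _ h with h1 | h1
      · exact ⟨a, Finset.mem_insert_self _ _, h1⟩
      · obtain ⟨x, hx, hx'⟩ := ih h1
        exact ⟨x, Finset.mem_insert_of_mem hx, hx'⟩
  obtain ⟨x, -, hx⟩ := hprod Finset.univ (by
    intro g
    obtain ⟨x, hx⟩ := hcov g
    rw [map_prod]
    refine Finset.prod_eq_zero (Finset.mem_univ x) ?_
    rw [evAt_trans]
    exact hx Q hQI)
  obtain ⟨g, hg⟩ := hQ
  apply hg
  have := hx (x.out * g)
  rwa [evAt_trans, inv_mul_cancel_left] at this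

end Pool.Agent.Y136
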