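import Pool.Agent.Y136.AR.Rev
import Pool.Agent.Y136.AR.Entries
import Pool.Agent.Y136.AR.Irr
import Pool.Agent.Y136.AR.Dens
import Pool.Agent.Y136.AR.Bad

/-!
# The Tate conjecture for almost all reductions: the main theorem
-/

open CategoryTheory AlgebraicGeometry Polynomial MeasureTheory Filter Topology

universe u v

namespace Pool.Agent.Y136

open Pool.Agent.H914 Pool.Agent.W534 VarClass Obj WeilCohomology

/-- A group with the same Zariski closure as a connected compact group is irreducible for the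
Zariski topology. -/
lemma irreducible_of_sameClosure {I : Type} [Fintype I] [DecidableEq I] {J : I → Type}
    [∀ i, Fintype (J i)] [∀ i, DecidableEq (J i)] {Γ G : Type} [Group Γ] [Group G]
    [TopologicalSpace G] [IsTopologicalGroup G] [CompactSpace G] [PreconnectedSpace G]
    (r : ∀ i, Γ →* Matrix (J i) (J i) ℂ) (ρ : ∀ i, G →* Matrix (J i) (J i) ℂ)
    (hρ : Continuous (totRep ρ)) (hu : ∀ g, totRep ρ g ∈ Matrix.unitaryGroup (Σ i, J i) ℂ)
    (h : SameClosure r ρ) (Q Q' : MvPolynomial (Letters J × Letters J) ℂ)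
    (hQ : ∀ γ, evAt (plusI (totRep r)) γ (Q * Q') = 0) :
    (∀ γ, evAt (plusI (totRep r)) γ Q = 0) ∨ ∀ γ, evAt (plusI (totRep r)) γ Q' = 0 := by
  have hcont : Continuous (plusI (totRep ρ)) := by
    have h1 : (plusI (totRep ρ) : G → _) = plusR (totRep ρ) := by
      funext g
      exact plusI_eq _ hu g
    rw [h1]
    exact continuous_plusR hρ
  have hiff : ∀ P : MvPolynomial (Letters J × Letters J) ℂ,
      (∀ γ, evAt (plusI (totRep r)) γ P = 0) ↔ ∀ g, evAt (plusI (totRep ρ)) g P = 0 := by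
    intro P
    obtain ⟨P', hP'⟩ := exists_subst P
    have h1 := h P'
    simp only [hP'] at h1
    exact h1
  rw [hiff, hiff]
  rw [hiff] at hQ
  by_contra hcon
  push Not at hcon
  obtain ⟨h1, h2⟩ := hcon
  let _ : MeasurableSpace G := borel G
  have _ : BorelSpace G := ⟨rfl⟩
  let μ : Measure G := Measure.haar
  have h3 := null_zeros (plusI (totRep ρ)) μ hcont Q h1
  have h4 := null_zeros (plusI (totRep ρ)) μ hcont Q' h2
  have h5 : μ Set.univ = 0 := by
    refine measure_mono_null ?_ (measure_union_null h3 h4)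
    intro g _
    have h6 := hQ g
    rw [map_mul, mul_eq_zero] at h6
    exact h6
  exact (Measure.measure_univ_ne_zero.mpr (NeZero.ne μ)) h5

lemma isProductOf_wordObj {k : Type u} [Field k] {𝒱 : VarClass k} {I : Type} {X : I → 𝒱.Obj}
    (w : FreeMagma I) : IsProductOf (Set.range X) (wordObj X w) := by
  induction w with
  | ih1 i => exact .base ⟨i, rfl⟩
  | ih2 v w hv hw => exact .prod hv hw

/-- **The Tate conjecture for all products of almost all reductions.** -/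
theorem almost_all_reductions
    {Γ : Type} [Group Γ] [TopologicalSpace Γ] [IsTopologicalGroup Γ] [CompactSpace Γ] [T2Space Γ]
    [SecondCountableTopology Γ] [MeasurableSpace Γ] [BorelSpace Γ] (μ : Measure Γ)
    [μ.IsHaarMeasure] [IsProbabilityMeasure μ]
    {F : Type} [Field F] [TopologicalSpace F] [IsTopologicalRing F] [T1Space F] (σ₀ : F ≃+* ℂ)
    {G : Type} [Group G] [TopologicalSpace G] [IsTopologicalGroup G] [CompactSpace G]
    [PreconnectedSpace G] (T : Subgroup G) (hT : IsMaximalTorus T)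
    {I : Type} [Fintype I] {J : I → Type} [∀ i, Fintype (J i)] [∀ i, DecidableEq (J i)]
    (deg : ∀ i, J i → ℕ) (r : ∀ i, Γ →* Matrix (J i) (J i) F) (hr : ∀ i, Continuous (r i))
    (ρ : ∀ i, G →* Matrix (J i) (J i) ℂ) (hρ : IsGradedRep deg ρ)
    (hΓ : SameClosure (fun i => mapRep σ₀ (r i)) ρ) (D : ℕ) (hD : 0 < D)
    {S : Type} [MeasurableSpace S] [DiscreteMeasurableSpace S]
    {k : S → Type u} [∀ s, Field (k s)] {𝒱 : ∀ s, VarClass (k s)} {ops : ∀ s, CycleOps (𝒱 s)}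
    (W : ∀ s, WeilCohomology.{u, v} (ops s)) (σ : ∀ s, (W s).K ≃+* ℂ) (p : S → ℕ)
    (hp : ∀ s, (p s).Prime) (Φ : ∀ s, FrobSystem (W s) (p s))
    (X : ∀ s, I → (𝒱 s).Obj) (b : ∀ s i, Module.Basis (J i) (W s).K ((W s).H (X s i)))
    (hX : ∀ s i, IsGroupOf ((W s).gr (X s i)) ((W s).tr (X s i)) (σ s) (deg i) (ρ i) (b s i))
    (m : S → ℕ) (hm : ∀ s, 0 < m s) (z : S → ℂ) (hz : ∀ s, z s ^ 2 = (p s : ℂ) ^ m s)
    (θ : S → G) (fr : ∀ s i, X s i ⟶ X s i)
    (hF : ∀ s i, IsFrobeniusAt (Φ s) (σ s) D (m s) (z s) (fr s i) (deg i) (b s i) (ρ i (θ s)))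
    (φ : S → Γ) (hφ : ∀ s i, (mapRep σ₀ (r i) (φ s)).charpoly = (ρ i (θ s)).charpoly)
    {ι : Type*} (l : Filter ι) (ν : ι → Measure S) [∀ j, IsProbabilityMeasure (ν j)]
    (hν : ∀ f : C(Γ, ℝ), (∀ g h, f (h * g * h⁻¹) = f g) →
      Tendsto (fun j => ∫ s, f (φ s) ∂(ν j)) l (𝓝 (∫ g, f g ∂μ))) :
    Tendsto (fun j => ν j {s | ¬ ((∀ Z, IsProductOf (Set.range (X s)) Z →
      ∀ n, SemisimpleTateIn (Φ s) Z n) ↔ FixedAreAlgebraic (W s) (X s)
        fun (g : G) i => matOp (σ s) (b s i) (ρ i g))}) l (𝓝 0) := by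
  classical
  have hcomm : ∀ t ∈ T, ∀ t' ∈ T, t * t' = t' * t := fun t ht t' ht' =>
    (hT.mem_iff t).mp ht t' ht'
  choose P P' lam deg' hdiag hhom using fun i =>
    exists_diagonalises T hcomm (ρ i) (hρ.unitary i) (deg i) (hρ.graded i)
  have hTD : TorusData T deg ρ P P' lam deg' :=
    ⟨hdiag, hhom, fun g hg => (hT.mem_iff g).mpr hg⟩
  have hpre : PreconnectedSpace T := Subtype.preconnectedSpace hT.preconnected
  have hRc : Continuous (totRep ρ) := by
    have h1 : Continuous fun g => Matrix.blockDiagonal' fun i => ρ i g :=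
      Continuous.matrix_blockDiagonal' (continuous_pi fun i => hρ.continuous i)
    exact h1
  have hRu : ∀ g, totRep ρ g ∈ Matrix.unitaryGroup (Σ i, J i) ℂ := by
    intro g
    rw [Matrix.mem_unitaryGroup_iff]
    show Matrix.blockDiagonal' (fun i => ρ i g) * (Matrix.blockDiagonal' fun i => ρ i g).conjTranspose = 1
    rw [Matrix.blockDiagonal'_conjTranspose, ← Matrix.blockDiagonal'_mul,
      ← Matrix.blockDiagonal'_one]
    congr 1
    funext i
    exact Matrix.mem_unitaryGroup_iff.mp (hρ.unitary i g)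
  obtain ⟨N₁, M, c, hne, hbad⟩ := (diagonalises_tot hdiag).exists_clp hRc
    (Fintype.card (Σ i, J i)) D 4 four_pos (fun x => deg' x.1 x.2)
  -- the class polynomial on the two groups
  set R : Γ →* Matrix (Σ i, J i) (Σ i, J i) ℂ := totRep fun i => mapRep σ₀ (r i) with hR
  let Q : MvPolynomial (Letters J × Letters J) ℂ :=
    clp N₁ M c (Matrix.of fun i j => MvPolynomial.X (i, j))
  have hQ : ∀ (H : Type) [Group H] (R' : H →* Matrix (Σ i, J i) (Σ i, J i) ℂ) (g : H),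
      evAt (plusI R') g Q = clp N₁ M c (plusI R' g) := by
    intro H _ R' g
    rw [clp_map]
    congr 1
    ext i j
    simp [evAt]
  have hirr := irreducible_of_sameClosure (fun i => mapRep σ₀ (r i)) ρ hRc hRu hΓ
  have hcl : ∀ Q : MvPolynomial (Letters J × Letters J) ℂ, IsClosed {γ | evAt (plusI R) γ Q = 0} := by
    intro Q
    obtain ⟨P, hP⟩ := exists_subst (J := J) Q
    have h1 := isClosed_entries σ₀ r hr P
    simp only [hP] at h1
    exact h1
  have hnv : ∃ γ, evAt (plusI R) γ Q ≠ 0 := by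
    by_contra hcon
    push Not at hcon
    obtain ⟨P, hP⟩ := exists_subst (J := J) Q
    obtain ⟨g, hg⟩ := hne
    apply hg
    have h1 := (hΓ P).mp (fun γ => by rw [hP]; exact hcon γ) g
    rw [hP, hQ, plusI_eq _ hRu] at h1
    exact h1
  have hnull := null_zeros_of_irreducible (plusI R) μ hcl hirr Q hnv
  have hlim := density_zero_closed μ φ l ν hν {γ | evAt (plusI R) γ Q = 0} (hcl Q) (by
    intro γ hγ h
    have h1 : plusI R h⁻¹ * plusI R h = 1 := by rw [← map_mul, inv_mul_cancel, map_one]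
    show evAt (plusI R) (h * γ * h⁻¹) Q = 0
    have h2 : evAt (plusI R) γ Q = 0 := hγ
    rw [hQ] at h2 ⊢
    rw [map_mul, map_mul, clp_conj h1, h2]) hnull
  refine tendsto_of_tendsto_of_tendsto_of_le_of_le tendsto_const_nhds hlim
    (fun i => zero_le) (fun i => measure_mono fun s hs => ?_)
  by_contra hne'
  apply hs
  refine ⟨fun htate => fixedAreAlgebraic_of_tate (hm s) (hz s) hρ (fun i => (hX s i).1) (hF s)
    fun w n => htate _ (isProductOf_wordObj w) n, fun hfixed Z hZ n => ?_⟩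
  obtain ⟨w, rfl⟩ := exists_word_of_product hZ
  obtain ⟨h, hh⟩ := hT.conj (θ s)
  have hTs := hTD.conj hρ h
  have hθs : θ s ∈ T.comap (MulAut.conj h).toMonoidHom := hh
  have hθ2 : θ s ^ 2 ∈ T.comap (MulAut.conj h).toMonoidHom := Subgroup.pow_mem _ hθs 2
  have hfib := isFibre_sq (hm s) (hz s) hρ (hX s) hfixed (hF s)
  have hsq : ∀ i j, lam i j (h * θ s ^ 2 * h⁻¹) = lam i j (h * θ s * h⁻¹) ^ 2 := by
    intro i j
    have h1 : h * θ s ^ 2 * h⁻¹ = (h * θ s * h⁻¹) * (h * θ s * h⁻¹) := by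
      rw [pow_two]; group
    rw [h1, (hdiag i).lam_mul hh hh, pow_two]
  have hWS := isWeilSystem (hp s).one_lt hD hρ hfib hTs hθ2
  refine semisimpleTate_of_generic (hp s).one_lt hρ hfib hTs hθ2 ?_ w n
  intro mm hmm
  by_contra hcon
  push Not at hcon
  obtain ⟨t', ht', hne2⟩ := hcon
  apply hne'
  show evAt (plusI R) (φ s) Q = 0
  rw [hQ, clp_tot_eq (fun i => mapRep σ₀ (r i)) ρ (φ s) (θ s) (hφ s), plusI_eq _ hRu]
  have h1 : plusM (totRep ρ h⁻¹) * plusM (totRep ρ h) = 1 := by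
    rw [← plusM_mul, ← map_mul, inv_mul_cancel, map_one, plusM_one]
  rw [← clp_conj h1, ← plusM_mul, ← plusM_mul, ← map_mul, ← map_mul]
  refine hbad _ hh _ _ hWS ?_ ⟨mm, ⟨h * t' * h⁻¹, ht', hne2⟩, ?_⟩
  · rintro ⟨i, j⟩
    have h2 : (σ s) (rtq (σ s) (p s ^ (2 * m s)) ^ deg' i j *
        (σ s).symm (lam i j (h * θ s ^ 2 * h⁻¹))) ^ 2 =
        ((p s ^ (2 * m s) : ℕ) : ℂ) ^ deg' i j * lam i j (h * θ s ^ 2 * h⁻¹) ^ 2 := by
      rw [map_mul, RingEquiv.apply_symm_apply, mul_pow, map_pow, ← pow_mul, mul_comm _ 2, pow_mul,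
        ← map_pow (σ s) (rtq (σ s) (p s ^ (2 * m s))), rtq_sq, map_natCast]
    show lam i j (h * θ s * h⁻¹) ^ 4 =
      (σ s) (rtq (σ s) (p s ^ (2 * m s)) ^ deg' i j *
        (σ s).symm (lam i j (h * θ s ^ 2 * h⁻¹))) ^ 2 / ((p s ^ (2 * m s) : ℕ) : ℂ) ^ deg' i j
    have h3 : ((p s ^ (2 * m s) : ℕ) : ℂ) ^ deg' i j ≠ 0 := hWS.q_ne |> pow_ne_zero _
    rw [h2, mul_div_cancel_left₀ _ h3, hsq, ← pow_mul]
  · obtain ⟨n', hn', hn2⟩ := hmm
    refine ⟨2 * n', by omega, ?_⟩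
    rw [pow_mul, ← hn2]
    congr 1
    rw [← Finset.prod_pow]
    refine Finset.prod_congr rfl fun x _ => ?_
    show (lam x.1 x.2 (h * θ s * h⁻¹) ^ mm x) ^ 2 = lam x.1 x.2 (h * θ s ^ 2 * h⁻¹) ^ mm x
    rw [hsq, ← zpow_natCast, ← zpow_natCast, ← zpow_mul, ← zpow_mul, mul_comm]

end Pool.Agent.Y136
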