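import Pool.Agent.Y136.AR.Square

/-!
# Classes fixed by the group are Tate classes
-/

open CategoryTheory AlgebraicGeometry Polynomial

universe u v

namespace Pool.Agent.Y136

open Pool.Agent.H914 Pool.Agent.W534 VarClass Obj WeilCohomology

variable {k : Type u} [Field k] {𝒱 : VarClass k} {ops : CycleOps 𝒱}
  {W : WeilCohomology.{u, v} ops}

/-- The operators on the products are determined by the operators on the factors. -/
lemma isWordOps_unique {I : Type} {X : I → 𝒱.Obj} {A : ∀ i, Module.End W.K (W.H (X i))}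
    {B : ∀ w : FreeMagma I, Module.End W.K (W.H (wordObj X w))} (h : IsWordOps W X A B)
    (w : FreeMagma I) : B w = wordOp W X A w := by
  induction w with
  | ih1 i => exact h.1 i
  | ih2 v w hv hw =>
    refine ext_kunneth_lin fun a c => ?_
    have h1 : (B (v * w)) (W.map (fst (wordObj X v) (wordObj X w)) a *
        W.map (snd (wordObj X v) (wordObj X w)) c) =
        W.map (fst _ _) (B v a) * W.map (snd _ _) (B w c) := h.2 v w a c
    have h2 : (wordOp W X A (v * w)) (W.map (fst (wordObj X v) (wordObj X w)) a *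
        W.map (snd (wordObj X v) (wordObj X w)) c) =
        W.map (fst _ _) (wordOp W X A v a) * W.map (snd _ _) (wordOp W X A w c) :=
      extOp_tmul (W := W) (wordOp W X A v) (wordOp W X A w) a c
    refine h1.trans ?_
    rw [hv, hw]
    exact h2.symm

section

variable {p : ℕ} {Φ : FrobSystem W p} {σ : W.K ≃+* ℂ} {G : Type*} [Group G]
  [TopologicalSpace G] {I : Type} {J : I → Type}
  [∀ i, Fintype (J i)] [∀ i, DecidableEq (J i)] {deg : ∀ i, J i → ℕ}
  {ρ : ∀ i, G →* Matrix (J i) (J i) ℂ} {D m : ℕ} {z : ℂ} {θ : G} {X : I → 𝒱.Obj}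
  {fr : ∀ i, X i ⟶ X i} {b : ∀ i, Module.Basis (J i) W.K (W.H (X i))}

lemma diag_apply (hb : ∀ i j, b i j ∈ W.gr (X i) (deg i j)) (z : ℂ) (i : I) (n : ℕ)
    (x : W.H (X i)) (hx : x ∈ W.gr (X i) n) :
    matOp σ (b i) (Matrix.diagonal fun j => z ^ deg i j) x = (σ.symm z) ^ n • x := by
  have h1 : ∀ A : Module.End W.K (W.H (X i)), A x = ∑ j, (b i).repr x j •
      A (proj (W.isInternal (X i)) n (b i j)) := by
    intro A
    conv_lhs => rw [← proj_same (W.isInternal (X i)) hx, ← (b i).sum_repr x]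
    simp only [map_sum, map_smul]
  have h2 := h1 1
  rw [Module.End.one_apply] at h2
  rw [h1]
  conv_rhs => rw [h2]
  rw [Finset.smul_sum]
  refine Finset.sum_congr rfl fun j _ => ?_
  rw [smul_comm]
  congr 1
  by_cases hj : deg i j = n
  · rw [← hj, proj_same _ (hb i j), matOp_diagonal, map_pow]
    rfl
  · rw [proj_ne _ (hb i j) hj, map_zero, map_zero, smul_zero]

lemma commute_diag (hρ : IsGradedRep deg ρ) (z : ℂ) (i : I) (g : G) :
    Commute (matOp σ (b i) (ρ i g)) (matOp σ (b i) (Matrix.diagonal fun j => z ^ deg i j)) := by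
  show matOp σ (b i) (ρ i g) * matOp σ (b i) _ = matOp σ (b i) _ * matOp σ (b i) (ρ i g)
  rw [← matOp_mul, ← matOp_mul]
  congr 1
  ext j l
  rw [Matrix.mul_diagonal, Matrix.diagonal_mul]
  by_cases h : deg i j = deg i l
  · rw [h, mul_comm]
  · rw [hρ.graded i g j l h, zero_mul, mul_zero]

/-- If the Tate conjecture holds for the products, then the classes fixed by the group are
algebraic. -/
theorem fixedAreAlgebraic_of_tate (hm : 0 < m) (hz : z ^ 2 = (p : ℂ) ^ m)
    (hρ : IsGradedRep deg ρ) (hb : ∀ i j, b i j ∈ W.gr (X i) (deg i j))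
    (hF : ∀ i, IsFrobeniusAt Φ σ D m z (fr i) (deg i) (b i) (ρ i θ))
    (hT : ∀ w n, SemisimpleTateIn Φ (wordObj X w) n) :
    FixedAreAlgebraic W X fun (g : G) i => matOp σ (b i) (ρ i g) := by
  intro w n c hc hfix
  obtain ⟨A, r, hA, hr, he, hFr⟩ := frob_word hm (fun i => (hF i).frobenius) w
  refine hT w n A hA (Submodule.mem_inf.mpr ⟨?_, hc⟩)
  -- the class is fixed by the powers of the element
  obtain ⟨B, hB, hBc⟩ := hfix (θ ^ r)
  rw [isWordOps_unique hB w] at hBc
  let f : ∀ i, Module.End W.K (W.H (X i)) := fun i => (W.map (fr i)).toLinearMap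
  let τ : ∀ i, Module.End W.K (W.H (X i)) := fun i => matOp σ (b i) (ρ i θ)
  let d : ∀ i, Module.End W.K (W.H (X i)) := fun i =>
    matOp σ (b i) (Matrix.diagonal fun j => z ^ deg i j)
  have hS : ∀ i, matOp σ (b i) (ρ i θ * Matrix.diagonal fun j => z ^ deg i j) = τ i * d i :=
    fun i => matOp_mul _ _
  have hcn : ∀ i, Commute (τ i * d i) (f i) ∧ IsNilpotent (τ i * d i - f i) := by
    intro i
    rw [← hS i]
    have h1 := (hF i).isFrobOp.nilpotent.neg
    rw [neg_sub] at h1
    exact ⟨(hF i).isFrobOp.commute.symm, h1⟩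
  obtain ⟨hcw, hnw⟩ := wordOp_nilpotent (A := fun i => (τ i * d i) ^ r) (B := fun i => f i ^ r)
    (fun i => (hcn i).1.pow_pow r r) (fun i => pow_nilpotent (hcn i).1 (hcn i).2 r) w
  -- the semisimple part on the class
  have h1 : (fun i => (τ i * d i) ^ r) = fun i => τ i ^ r * d i ^ r := by
    funext i
    exact (commute_diag hρ z i θ).mul_pow r
  have h2 : wordOp W X (fun i => d i ^ r) w c = ((σ.symm z) ^ r) ^ (2 * n) • c := by
    refine wordOp_scalar (c := (σ.symm z) ^ r) ?_ w (2 * n) c hc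
    intro i e y hy
    have h3 : ∀ r : ℕ, (d i ^ r) y = ((σ.symm z) ^ r) ^ e • y := by
      intro r
      induction r with
      | zero => simp
      | succ r ih =>
        rw [pow_succ, Module.End.mul_apply, diag_apply hb z i e y hy, map_smul, ih,
          smul_smul, pow_succ, mul_pow, mul_comm]
    exact h3 r
  have h3 : wordOp W X (fun i => τ i ^ r) w c = c := by
    have h4 : (fun i => τ i ^ r) = fun i => matOp σ (b i) (ρ i (θ ^ r)) := by
      funext i
      have h5 : ∀ r : ℕ, τ i ^ r = matOp σ (b i) (ρ i (θ ^ r)) := by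
        intro r
        induction r with
        | zero => rw [pow_zero, pow_zero, map_one, matOp_one]
        | succ r ih => rw [pow_succ, ih, pow_succ, map_mul, matOp_mul]
      exact h5 r
    rw [h4]
    exact hBc
  have hz2 : (σ.symm z) ^ 2 = (p : W.K) ^ m := by
    rw [← map_pow, hz, map_pow, map_natCast]
  have h4 : wordOp W X (fun i => (τ i * d i) ^ r) w c = ((p : W.K) ^ m) ^ (r * n) • c := by
    rw [h1, wordOp_mul (fun i => τ i ^ r) (fun i => d i ^ r), Module.End.mul_apply, h2, map_smul,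
      h3]
    congr 1
    rw [← pow_mul, show r * (2 * n) = 2 * (r * n) by ring, pow_mul, hz2]
  have h5 : (((wordOp W X (fun i => (τ i * d i) ^ r) w -
      algebraMap W.K _ (((p : W.K) ^ m) ^ (r * n)) : Module.End W.K (W.H (wordObj X w)))) ^
        (1 : ℕ)) c = 0 := by
    rw [pow_one, LinearMap.sub_apply, h4, Module.algebraMap_end_apply, sub_self]
  obtain ⟨N, hN⟩ := pow_sub_apply_eq_zero hcw hnw h5
  rw [Module.End.mem_maxGenEigenspace]
  refine ⟨N, ?_⟩
  have h6 : (W.map (W534.iter (Φ.Fr (wordObj X w)) A)).toLinearMap =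
      wordOp W X (fun i => f i ^ r) w := by
    rw [map_iter_eq_pow, hFr]
  have h7 : (card Φ (wordObj X w) A : W.K) ^ n = ((p : W.K) ^ m) ^ (r * n) := by
    unfold card
    push_cast
    rw [← pow_mul, ← pow_mul]
    congr 1
    calc Φ.e (wordObj X w) * A * n = (A * Φ.e (wordObj X w)) * n := by ring
      _ = r * m * n := by rw [he]
      _ = m * (r * n) := by ring
  rw [h6, h7]
  exact hN

end

end Pool.Agent.Y136
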