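import Pool.Agent.Y136.AR.Defs
import Pool.Agent.Y136.MG.Almost

/-!
# The second power of the Frobenius endomorphism
-/

open CategoryTheory AlgebraicGeometry Polynomial

universe u v

namespace Pool.Agent.Y136

open Pool.Agent.H914 Pool.Agent.W534 VarClass Obj WeilCohomology

section Sq

variable {K : Type*} [Field K] [CharZero K]

lemma charpoly_sq_expand {n : Type*} [Fintype n] [DecidableEq n] (M : Matrix n n K) :
    expand K 2 (M ^ 2).charpoly =
      C ((-1) ^ Fintype.card n) * M.charpoly * M.charpoly.comp (-X) := by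
  refine Polynomial.funext fun r => ?_
  rw [expand_eval, eval_mul, eval_mul, eval_C, eval_comp, eval_neg, eval_X,
    Matrix.eval_charpoly, Matrix.eval_charpoly, Matrix.eval_charpoly]
  have h1 : (Matrix.scalar n) (r ^ 2) - M ^ 2 =
      ((Matrix.scalar n) r - M) * (-((Matrix.scalar n) (-r) - M)) := by
    have hc : (Matrix.scalar n) r * M = M * (Matrix.scalar n) r :=
      (Matrix.scalar_commute r (fun r' => mul_comm r r') M)
    rw [map_neg, map_pow, pow_two, pow_two, sub_mul, mul_neg, mul_neg, mul_sub, mul_sub, mul_neg,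
      mul_neg, hc]
    abel
  rw [h1, Matrix.det_mul, Matrix.det_neg]
  ring

lemma integral_charpoly_sq {V : Type*} [AddCommGroup V] [Module K V] [Module.Finite K V]
    (f : Module.End K V) (h : ℤ[X]) (hh : f.charpoly = h.map (Int.castRingHom K)) :
    ∃ h' : ℤ[X], (f ^ 2).charpoly = h'.map (Int.castRingHom K) := by
  classical
  let b := Module.finBasis K V
  let M := LinearMap.toMatrix b b f
  have hM : M.charpoly = h.map (Int.castRingHom K) := by
    rw [← hh, LinearMap.charpoly_toMatrix]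
  have hM2 : (M ^ 2).charpoly = (f ^ 2).charpoly := by
    rw [← LinearMap.charpoly_toMatrix (f ^ 2) b, LinearMap.toMatrix_pow]
  refine ⟨contract 2 (C ((-1) ^ Fintype.card (Fin (Module.finrank K V))) * h * h.comp (-X)), ?_⟩
  rw [map_contract two_ne_zero, Polynomial.map_mul, Polynomial.map_mul, Polynomial.map_comp,
    Polynomial.map_neg, Polynomial.map_X, ← hM, Polynomial.map_C]
  have h1 := charpoly_sq_expand M
  have h2 : (Int.castRingHom K) ((-1) ^ Fintype.card (Fin (Module.finrank K V))) =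
      (-1) ^ Fintype.card (Fin (Module.finrank K V)) := by simp
  rw [h2, ← h1, contract_expand 2 two_ne_zero, hM2]

lemma integral_charpolyOn_sq {V : Type*} [AddCommGroup V] [Module K V] [Module.Finite K V]
    {f : Module.End K V} {S : Submodule K V} (hS : ∀ x ∈ S, f x ∈ S)
    (h : ∃ h : ℤ[X], charpolyOn f S = h.map (Int.castRingHom K)) :
    ∃ h' : ℤ[X], charpolyOn (f ^ 2) S = h'.map (Int.castRingHom K) := by
  obtain ⟨h, hh⟩ := h
  have hS2 : ∀ x ∈ S, (f ^ 2) x ∈ S := fun x hx => by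
    rw [pow_two, Module.End.mul_apply]
    exact hS _ (hS _ hx)
  have h1 : charpolyOn f S = (f.restrict hS).charpoly := dif_pos hS
  have h2 : charpolyOn (f ^ 2) S = ((f ^ 2).restrict hS2).charpoly := dif_pos hS2
  obtain ⟨h', hh'⟩ := integral_charpoly_sq (f.restrict hS) h (by rw [← h1, hh])
  refine ⟨h', ?_⟩
  rw [h2, ← hh']
  congr 1

end Sq

variable {k : Type u} [Field k] {𝒱 : VarClass k} {ops : CycleOps 𝒱}

lemma iter_add {X : 𝒱.Obj} (f : X ⟶ X) (a b : ℕ) :
    W534.iter f (a + b) = W534.iter f a ≫ W534.iter f b := by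
  induction b with
  | zero => exact (Category.comp_id _).symm
  | succ b ih =>
    show W534.iter f (a + b) ≫ f = W534.iter f a ≫ (W534.iter f b ≫ f)
    rw [ih, Category.assoc]

lemma iter_mul {X : 𝒱.Obj} (f : X ⟶ X) (a b : ℕ) :
    W534.iter f (a * b) = W534.iter (W534.iter f a) b := by
  induction b with
  | zero => rfl
  | succ b ih =>
    rw [Nat.mul_succ, iter_add, ih]
    rfl

lemma isAlgClosed_of_equiv {F : Type*} [Field F] (σ : F ≃+* ℂ) : IsAlgClosed F := by
  refine IsAlgClosed.of_exists_root _ fun P _ hP => ?_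
  obtain ⟨x, hx⟩ := IsAlgClosed.exists_root (P.map σ.toRingHom) (by
    rw [Polynomial.degree_map]
    exact (degree_pos_of_irreducible hP).ne')
  refine ⟨σ.symm x, σ.injective ?_⟩
  have h1 : σ.toRingHom (eval (σ.symm x) P) = eval (σ (σ.symm x)) (P.map σ.toRingHom) := by
    rw [Polynomial.eval_map]
    exact Polynomial.hom_eval₂ P (RingHom.id F) σ.toRingHom (σ.symm x)
  rw [RingEquiv.apply_symm_apply, hx.eq_zero] at h1
  rw [map_zero]
  exact h1

/-- The square of the Frobenius endomorphism, for either sign of the square root. -/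
lemma isFibre_sq {W : WeilCohomology.{u, v} ops} {p : ℕ} {Φ : FrobSystem W p}
    {σ : W.K ≃+* ℂ} {G : Type*} [Group G] [TopologicalSpace G] {I : Type} {J : I → Type}
    [∀ i, Fintype (J i)]
    [∀ i, DecidableEq (J i)] {deg : ∀ i, J i → ℕ} {ρ : ∀ i, G →* Matrix (J i) (J i) ℂ}
    {D m : ℕ} {z : ℂ} {θ : G} {X : I → 𝒱.Obj} {fr : ∀ i, X i ⟶ X i}
    {b : ∀ i, Module.Basis (J i) W.K (W.H (X i))} (hm : 0 < m) (hz : z ^ 2 = (p : ℂ) ^ m)
    (hρ : IsGradedRep deg ρ) (hX : ∀ i, IsGroupOf (W.gr (X i)) (W.tr (X i)) σ (deg i) (ρ i) (b i))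
    (hT : FixedAreAlgebraic W X fun (g : G) i => matOp σ (b i) (ρ i g))
    (hF : ∀ i, IsFrobeniusAt Φ σ D m z (fr i) (deg i) (b i) (ρ i θ)) :
    IsFibre Φ σ deg ρ D (2 * m) (θ ^ 2) X (fun i => W534.iter (fr i) 2) b := by
  have hchar : CharZero W.K := W.charZero
  have hmap : ∀ i, (W.map (W534.iter (fr i) 2)).toLinearMap = (W.map (fr i)).toLinearMap ^ 2 :=
    fun i => map_iter_eq_pow (fr i) 2
  have hmat : ∀ i, frobMat (p ^ (2 * m)) (deg i) (ρ i (θ ^ 2)) =
      (ρ i θ * Matrix.diagonal fun j => z ^ deg i j) ^ 2 := by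
    intro i
    have hs : ((Real.sqrt ((p ^ (2 * m) : ℕ) : ℝ) : ℝ) : ℂ) = z ^ 2 := by
      have h1 : ((p ^ (2 * m) : ℕ) : ℝ) = ((p : ℝ) ^ m) ^ 2 := by
        push_cast
        rw [← pow_mul, mul_comm]
      rw [h1, Real.sqrt_sq (by positivity), hz]
      push_cast
      rfl
    have hc : (Matrix.diagonal fun j => z ^ deg i j) * ρ i θ =
        ρ i θ * Matrix.diagonal fun j => z ^ deg i j := by
      ext j l
      rw [Matrix.mul_diagonal, Matrix.diagonal_mul]
      by_cases h : deg i j = deg i l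
      · rw [h, mul_comm]
      · rw [hρ.graded i θ j l h, zero_mul, mul_zero]
    have h2 : (Matrix.diagonal fun j => (z ^ 2) ^ deg i j) =
        (Matrix.diagonal fun j => z ^ deg i j) * Matrix.diagonal fun j => z ^ deg i j := by
      rw [Matrix.diagonal_mul_diagonal]
      congr 1
      funext j
      rw [← mul_pow, pow_two]
    unfold frobMat
    rw [hs, map_pow, h2, pow_two, pow_two]
    set A := ρ i θ
    set B : Matrix (J i) (J i) ℂ := Matrix.diagonal fun j => z ^ deg i j
    calc A * A * (B * B) = A * (A * B) * B := by simp only [mul_assoc]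
      _ = A * (B * A) * B := by rw [hc]
      _ = A * B * (A * B) := by simp only [mul_assoc]
  have hop : ∀ i, matOp σ (b i) (frobMat (p ^ (2 * m)) (deg i) (ρ i (θ ^ 2))) =
      matOp σ (b i) (ρ i θ * Matrix.diagonal fun j => z ^ deg i j) ^ 2 := by
    intro i
    rw [hmat, pow_two, pow_two, matOp_mul]
  refine
    { pos := by omega
      frobenius := ?_
      homogeneous := fun i => (hX i).1
      pairing := fun i g x y => (hX i).2 g x y
      commute := ?_
      nilpotent := ?_
      integral := ?_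
      slopes := ?_
      tate_wordOp := fun w n c hc h => hT w n c hc fun g => ⟨_, isWordOps_wordOp W X _, h g⟩ }
  · intro i
    obtain ⟨a, c, ha, hc, hac, hit⟩ := (hF i).frobenius
    refine ⟨a, c * 2, ha, by omega, ?_, ?_⟩
    · calc a * (2 * m) = 2 * (a * m) := by ring
        _ = c * 2 * Φ.e (X i) := by rw [hac]; ring
    · rw [← iter_mul, mul_comm 2 a, iter_mul, hit, ← iter_mul]
  · intro i
    rw [hmap, hop]
    exact (hF i).isFrobOp.commute.pow_pow 2 2
  · intro i
    rw [hmap, hop]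
    exact pow_nilpotent (hF i).isFrobOp.commute (hF i).isFrobOp.nilpotent 2
  · intro i n
    rw [hmap]
    exact integral_charpolyOn_sq (fun x hx => W.map_mem (fr i) hx) ((hF i).isFrobOp.integral n)
  · intro i α hα v
    rw [hmap] at hα
    have hacl : IsAlgClosed W.K := isAlgClosed_of_equiv σ
    have h1 : α ∈ spectrum W.K ((W.map (fr i)).toLinearMap ^ 2) :=
      Module.End.hasEigenvalue_iff_mem_spectrum.mp hα
    rw [spectrum.map_pow_of_pos _ two_pos] at h1
    obtain ⟨β, hβ, rfl⟩ := h1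
    obtain ⟨u, hu1, hu2⟩ := (hF i).isFrobOp.slopes β
      (Module.End.hasEigenvalue_iff_mem_spectrum.mpr hβ) v
    have hp2 : (p : W.K) ^ (2 * m) = ((p : W.K) ^ m) ^ 2 := by rw [mul_comm, pow_mul]
    have h3 : ∀ x y : W.K, (y ^ 2) ^ D / (x ^ 2) ^ u = (y ^ D / x ^ u) * (y ^ D / x ^ u) := by
      intro x y
      rw [div_mul_div_comm, ← mul_zpow, ← mul_pow, pow_two, pow_two]
    have h4 : ∀ x y : W.K, (x ^ 2) ^ u / (y ^ 2) ^ D = (x ^ u / y ^ D) * (x ^ u / y ^ D) := by
      intro x y
      rw [div_mul_div_comm, ← mul_zpow, ← mul_pow, pow_two, pow_two]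
    refine ⟨u, ?_, ?_⟩
    · rw [hp2]
      show (β ^ 2) ^ D / (((p : W.K) ^ m) ^ 2) ^ u ∈ v
      rw [h3]
      exact mul_mem hu1 hu1
    · rw [hp2]
      show (((p : W.K) ^ m) ^ 2) ^ u / (β ^ 2) ^ D ∈ v
      rw [h4]
      exact mul_mem hu2 hu2

end Pool.Agent.Y136
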